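import Mathlib

set_option autoImplicit false

namespace Pool.Agent.Results.MP_59cc96_an.Holds

open Finset Filter Topology

variable {𝕂 E : Type} [RCLike 𝕂] [NormedAddCommGroup E] [NormedSpace 𝕂 E]

/-- The span of the first `n` terms `x 0, …, x (n-1)`. -/
def P (𝕂 : Type) [RCLike 𝕂] [NormedSpace 𝕂 E] (x : ℕ → E) (n : ℕ) : Submodule 𝕂 E :=
  Submodule.span 𝕂 (x '' Set.Iio n)

theorem sum_mem_P (x : ℕ → E) (a : ℕ → 𝕂) (n : ℕ) : ∑ i ∈ range n, a i • x i ∈ P 𝕂 x n :=
  sum_mem fun i c => Submodule.smul_mem _ _ (Submodule.subset_span ⟨i, mem_range.mp c, rfl⟩)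

/-- The partial sum `a 0 • x 0 + … + a (n-1) • x (n-1)` as an element of `P n`. -/
def S (x : ℕ → E) (a : ℕ → 𝕂) (n : ℕ) : P 𝕂 x n := ⟨∑ i ∈ range n, a i • x i, sum_mem_P x a n⟩

/-- Operational bases. -/
def Operational (𝕂 : Type) [RCLike 𝕂] [NormedSpace 𝕂 E] (x : ℕ → E) : Prop :=
  Dense (Submodule.span 𝕂 (Set.range x) : Set E) ∧ ∃ f : ℕ → StrongDual 𝕂 E,
    (∀ i j, f i (x j) = if i = j then 1 else 0) ∧ ∃ v : ∀ n, P 𝕂 x n →ₗ[𝕂] P 𝕂 x n,
      ∀ y, Tendsto (fun n => (v n (S x (fun i => f i y) n) : E)) atTop (𝓝 y)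

/-- Generalized summation bases with respect to `v`. -/
def GenSum (x : ℕ → E) (v : ∀ n, P 𝕂 x n →ₗ[𝕂] P 𝕂 x n) : Prop :=
  (∀ i, Tendsto (fun n => (v n (S x (Pi.single i 1) n) : E)) atTop (𝓝 (x i))) ∧
    ∀ y, ∃! a : ℕ → 𝕂, Tendsto (fun n => (v n (S x a n) : E)) atTop (𝓝 y)

theorem S_congr (x : ℕ → E) {a b : ℕ → 𝕂} {n : ℕ} (h : ∀ i < n, a i = b i) :
    S x a n = S x b n :=
  Subtype.ext (show ∑ i ∈ range n, a i • x i = ∑ i ∈ range n, b i • x i from
    sum_congr rfl fun i c => by rw [h i (mem_range.mp c)])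

theorem result [CompleteSpace E] (x : ℕ → E) (h : Operational 𝕂 x) :
    ∃ v : ∀ n, P 𝕂 x n →ₗ[𝕂] P 𝕂 x n, GenSum x v := by
  obtain ⟨-, f, hf, v, hv⟩ := h
  let s : ∀ n, E →ₗ[𝕂] P 𝕂 x n := fun n =>
    { toFun := fun y => S x (fun i => f i y) n
      map_add' := fun y z => Subtype.ext (by simp [S, add_smul, sum_add_distrib])
      map_smul' := fun c z => Subtype.ext (by simp [S, smul_sum, mul_smul]) }
  have a : ∀ (a : ℕ → 𝕂) n i, i < n → f i (S x a n) = a i := fun a n i c => by simp [S, hf, c]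
  let δ : ℕ → 𝕂 := fun i => ((1 / 2) ^ i / (‖f i‖ * ‖x i‖ + 1) : ℝ)
  let D : ∀ n, E →ₗ[𝕂] E := fun n => ∑ i ∈ range n, δ i • (f i : E →ₗ[𝕂] 𝕂).smulRight (x i)
  have hD : ∀ n y, D n y = S x (fun i => δ i * f i y) n := fun n y => by simp [D, S, mul_smul]
  have b : ∀ y n, ‖(S x (fun i => δ i * f i y) n : E)‖ ≤ 2 * ‖y‖ := fun y n => by
    refine (norm_sum_le (range n) fun i => (δ i * f i y) • x i).trans
      ((sum_le_sum (g := fun i => (1 / 2) ^ i * ‖y‖) fun i _ => ?_).trans ?_)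
    · rw [norm_smul, norm_mul, RCLike.norm_ofReal, abs_of_nonneg (by positivity), div_mul_eq_mul_div,
        div_mul_eq_mul_div, div_le_iff₀ (by positivity), mul_assoc, mul_assoc]
      refine mul_le_mul_of_nonneg_left ?_ (by positivity)
      nlinarith [mul_le_mul_of_nonneg_right ((f i).le_opNorm y) (norm_nonneg (x i)), norm_nonneg y]
    · rw [← sum_mul]
      gcongr
      exact sum_geometric_two_le n
  have m : ∀ n, P 𝕂 x (n / 2) ≤ P 𝕂 x n := fun n =>
    Submodule.span_mono (Set.image_mono (Set.Iio_subset_Iio (Nat.div_le_self _ _)))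
  let u : ∀ n, E →ₗ[𝕂] E := fun n => (P 𝕂 x n).subtype ∘ₗ v n ∘ₗ s n
  let w : ∀ n, E →ₗ[𝕂] E := fun n => u (n / 2) + (n % 2) • D (n / 2) ∘ₗ (LinearMap.id - u (n / 2))
  have hw : ∀ n y, w n y = u (n / 2) y + (n % 2) • D (n / 2) (y - u (n / 2) y) := fun _ _ => rfl
  have key : ∀ c n, w n (S x c n) = v (n / 2) (S x c (n / 2)) + (n % 2) •
      (S x (fun i => δ i * (c i - f i (v (n / 2) (S x c (n / 2))))) (n / 2) : E) := fun c n => by
    have k : u (n / 2) (S x c n) = v (n / 2) (S x c (n / 2)) := congrArg (fun z => (v _ z : E))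
      (S_congr x fun i l => a _ _ _ (l.trans_le (Nat.div_le_self _ _)))
    rw [hw, hD, k]
    congr 3
    exact S_congr x fun i l => by rw [map_sub, a _ _ _ (l.trans_le (Nat.div_le_self _ _))]
  have e : ∀ y, Tendsto (fun n => w n (S x (fun i => f i y) n)) atTop (𝓝 y) := fun y => by
    have t := (hv y).comp (Nat.tendsto_div_const_atTop two_ne_zero)
    simp only [key, ← map_sub]
    rw [← add_zero y]
    refine Tendsto.add (by rwa [add_zero]) (squeeze_zero_norm (fun n => ?_)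
      (by simpa using (t.const_sub y).norm.const_mul 2))
    rcases Nat.mod_two_eq_zero_or_one n with c | c <;> simp [c, b, -map_sub]
  refine ⟨fun n => (w n).restrict fun y _ => m n ?_, fun i => ?_, fun y =>
    ⟨_, e y, fun c hc => funext fun i => ?_⟩⟩
  · rw [hw, hD]
    exact add_mem (v _ _).2 (nsmul_mem (S _ _ _).2 _)
  · rw [show Pi.single i (1 : 𝕂) = fun j => f j (x i) from funext fun j => by
      simp [hf, Pi.single_apply]]
    exact e (x i)
  · replace hc : Tendsto (fun n => w n (S x c n)) atTop (𝓝 y) := hc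
    have t := fun r => ((f i).continuous.tendsto _).comp (hc.comp (tendsto_add_atTop_nat r |>.comp
      (tendsto_id.const_mul_atTop' (show 0 < 2 by norm_num))))
    have z : δ i ≠ 0 := RCLike.ofReal_ne_zero.mpr (by positivity)
    refine sub_eq_zero.mp ((mul_eq_zero.mp (tendsto_nhds_unique
      (((t 0).const_sub (c i)).const_mul (δ i)) ?_)).resolve_left z)
    rw [← sub_self (f i y)]
    refine ((t 1).sub (t 0)).congr' ((eventually_gt_atTop i).mono fun n l => ?_)
    have k := key c (2 * n + 1)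
    have k' := key c (2 * n)
    rw [show (2 * n + 1) / 2 = n by omega, show (2 * n + 1) % 2 = 1 by omega] at k
    rw [show 2 * n / 2 = n by omega, show 2 * n % 2 = 0 by omega] at k'
    simp [k, k', a _ _ _ l]

end Pool.Agent.Results.MP_59cc96_an.Holds
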